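import Pool.Agent.Run7.h206.SV.Dir

/-! # Diametral sites of closed walks, given the growth of their numbers -/

set_option autoImplicit false

namespace Run7.h647.PD

open scoped Classical
open Run7.h206.SV

/-- the self-avoiding walks with `n` steps whose last site is a neighbour of the first one -/
noncomputable def CF (n : ℕ) : Finset (List P) := (SF n).filter (fun l => Adj 0 (l.getLastD 0))

theorem mem_CF {n : ℕ} {l : List P} : l ∈ CF n ↔ l ∈ SF n ∧ Adj 0 (l.getLastD 0) := by
  unfold CF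
  rw [Finset.mem_filter]

theorem last_bmp {S : Finset ℤ} {f : ℤ → ℤ} : ∀ l : List P, (bmp S f l).getLastD 0 = l.getLastD 0
  | [] => rfl
  | [a] => rfl
  | a :: b :: l => by
    have ih := last_bmp (S := S) (f := f) (b :: l)
    have hne : bmp S f (b :: l) ≠ [] := by
      intro h
      have := head_bmp (S := S) (f := f) (b :: l)
      rw [h] at this
      simp at this
    rw [bmp]
    have e1 : ∀ (x : P) (u v : List P), v ≠ [] → (x :: (u ++ v)).getLastD 0 = v.getLastD 0 := by
      intro x u v hv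
      rw [List.getLastD_eq_getLast?, List.getLastD_eq_getLast?, ← List.cons_append,
        List.getLast?_append]
      rw [List.getLast?_eq_some_getLast hv]
      rfl
    rw [e1 _ _ _ hne, ih]
    have e2 : (a :: b :: l).getLastD 0 = (b :: l).getLastD 0 := by simp
    rw [e2]

theorem bmp_mem' {c : ℤ} {n : ℕ} {l : List P} (hl : l ∈ CF n) {S : Finset ℤ} (hS : S ⊆ Z c l) :
    bmp S (cm l) l ∈ CF (n + 2 * S.card) := by
  rw [mem_CF] at hl ⊢
  exact ⟨bmp_mem hl.1 hS, by rw [last_bmp]; exact hl.2⟩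

/-- the growth of the numbers of the closed walks -/
def Gr (g : ℕ) : Prop := 1 ≤ g ∧ ∀ n r : ℕ, (CF (n + 2 * r)).card ≤ g ^ r * (CF n).card

theorem exp_Z' {g : ℕ} (hg : Gr g) (c : ℤ) (n : ℕ) :
    ∑ l ∈ CF n, (1 + 1 / (2 * g) : ℝ) ^ (Z c l).card ≤ 2 * (CF n).card := by
  have hg0 : (0 : ℝ) < g := by exact_mod_cast hg.1
  set t : ℝ := 1 / (2 * g) with ht
  have ht0 : 0 < t := by positivity
  have h1 : ∀ l, (1 + t) ^ (Z c l).card = ∑ S ∈ (Z c l).powerset, t ^ S.card := by
    intro l
    rw [add_comm, ← Finset.sum_pow_mul_eq_add_pow]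
    simp
  simp_rw [h1]
  rw [Finset.sum_sigma']
  set Q := (CF n).sigma (fun l => (Z c l).powerset) with hQ
  set J := Q.image (fun q => q.2.card) with hJ
  have h2 : ∑ q ∈ Q, t ^ q.2.card = ∑ j ∈ J, ∑ q ∈ Q.filter (fun q => q.2.card = j), t ^ q.2.card := by
    rw [Finset.sum_fiberwise_of_maps_to]
    intro q hq
    exact Finset.mem_image_of_mem _ hq
  rw [h2]
  have h3 : ∀ j ∈ J, ∑ q ∈ Q.filter (fun q => q.2.card = j), t ^ q.2.card ≤
      (1 / 2) ^ j * (CF n).card := by
    intro j _
    have h4 : ∑ q ∈ Q.filter (fun q => q.2.card = j), t ^ q.2.card =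
        ((Q.filter (fun q => q.2.card = j)).card : ℝ) * t ^ j := by
      rw [Finset.sum_congr rfl (fun q hq => by rw [(Finset.mem_filter.1 hq).2]), Finset.sum_const,
        nsmul_eq_mul]
    rcases Nat.eq_zero_or_pos j with rfl | hj
    · have h5 : (Q.filter (fun q => q.2.card = 0)).card ≤ (CF n).card := by
        refine Finset.card_le_card_of_injOn (fun q => q.1) ?_ ?_
        · intro q hq
          rw [Finset.mem_coe, Finset.mem_filter, hQ, Finset.mem_sigma] at hq
          exact hq.1.1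
        · rintro ⟨l, S⟩ hq ⟨l', S'⟩ hq' h
          rw [Finset.mem_coe, Finset.mem_filter] at hq hq'
          have e1 := Finset.card_eq_zero.1 hq.2
          have e2 := Finset.card_eq_zero.1 hq'.2
          simp only at h e1 e2
          subst h e1 e2
          rfl
      rw [h4, pow_zero, pow_zero, mul_one, one_mul]
      exact_mod_cast h5
    have h5 : (Q.filter (fun q => q.2.card = j)).card ≤ (CF (n + 2 * j)).card := by
      refine Finset.card_le_card_of_injOn (fun q => bmp q.2 (cm q.1) q.1) ?_ ?_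
      · intro q hq
        rw [Finset.mem_coe, Finset.mem_filter, hQ, Finset.mem_sigma, Finset.mem_powerset] at hq
        rw [Finset.mem_coe, ← hq.2]
        exact bmp_mem' hq.1.1 hq.1.2
      · rintro ⟨l, S⟩ hq ⟨l', S'⟩ hq' h
        rw [Finset.mem_coe, Finset.mem_filter, hQ, Finset.mem_sigma, Finset.mem_powerset] at hq hq'
        have hne : S.Nonempty := Finset.card_pos.1 (by rw [hq.2]; exact hj)
        have hne' : S'.Nonempty := Finset.card_pos.1 (by rw [hq'.2]; exact hj)
        have m1 := (mem_CF.1 hq.1.1).1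
        have m2 := (mem_CF.1 hq'.1.1).1
        obtain ⟨rfl, rfl⟩ := bmp_inj (mem_SF.1 m1).2.2.1 (mem_SF.1 m2).2.2.1
          (SF_ne m1) (SF_ne m2) hq.1.2 hq'.1.2 hne hne' h
        rfl
    have h6 := hg.2 n j
    have h7 : ((Q.filter (fun q => q.2.card = j)).card : ℝ) ≤ (g : ℝ) ^ j * (CF n).card := by
      exact_mod_cast h5.trans h6
    rw [h4]
    calc ((Q.filter (fun q => q.2.card = j)).card : ℝ) * t ^ j
        ≤ ((g : ℝ) ^ j * (CF n).card) * t ^ j := by gcongr
      _ = (1 / 2) ^ j * (CF n).card := by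
        have e2 : (g : ℝ) ^ j * t ^ j = (1 / 2) ^ j := by
          rw [← mul_pow, ht]
          congr 1
          field_simp
        linear_combination ((CF n).card : ℝ) * e2
  refine (Finset.sum_le_sum h3).trans ?_
  rw [← Finset.sum_mul]
  have h8 := half_sum_le J
  have h9 : (0 : ℝ) ≤ (CF n).card := by positivity
  nlinarith

theorem mem_CF_map {g : P → P} (hg : Sy g) {n : ℕ} {l : List P} (hl : l ∈ CF n) :
    l.map g ∈ CF n := by
  rw [mem_CF] at hl ⊢
  refine ⟨hg.mem_SF hl.1, ?_⟩
  have hne := SF_ne hl.1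
  have e : (l.map g).getLastD 0 = g (l.getLastD 0) := by
    rw [List.getLastD_eq_getLast?, List.getLastD_eq_getLast?, List.getLast?_map,
      List.getLast?_eq_some_getLast hne]
    rfl
  rw [e, adj_D2]
  have h := hg.dist 0 (l.getLastD 0)
  rw [hg.zero] at h
  rw [h]
  exact adj_D2.1 hl.2

theorem sum_map {g : P → P} (hg : Sy g) (n : ℕ) (F : List P → ℝ) :
    ∑ l ∈ CF n, F (l.map g) = ∑ l ∈ CF n, F l := by
  refine Finset.sum_nbij' (fun l => l.map g) (fun l => l.map g) (fun l hl => mem_CF_map hg hl)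
    (fun l hl => mem_CF_map hg hl) (fun l _ => hg.map_map l) (fun l _ => hg.map_map l)
    (fun l _ => rfl)

theorem exp_Dm' {g : ℕ} (hg : Gr g) (n : ℕ) :
    ∑ l ∈ CF n, Real.exp (Real.log (1 + 1 / (2 * g)) / 16 * (Dm l).card) ≤ 24 * (CF n).card := by
  have hg0 : (0 : ℝ) < g := by exact_mod_cast hg.1
  have hg1 : (1 : ℝ) ≤ g := by exact_mod_cast hg.1
  set s : ℝ := 1 + 1 / (2 * g) with hs
  have hs1 : 1 < s := by
    rw [hs]
    have : (0 : ℝ) < 1 / (2 * g) := by positivity
    linarith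
  have hs2 : s ≤ 3 / 2 := by
    rw [hs]
    have : (1 : ℝ) / (2 * g) ≤ 1 / 2 := by
      apply one_div_le_one_div_of_le (by norm_num)
      linarith
    linarith
  set b : ℝ := Real.log s with hb
  have hb0 : 0 < b := Real.log_pos hs1
  have heb : Real.exp b = s := by
    rw [hb, Real.exp_log (by linarith)]
  have e1 : ∀ k : ℕ, Real.exp (b * k) = s ^ k := by
    intro k
    rw [mul_comm, Real.exp_nat_mul, heb]
  have key : ∀ l ∈ CF n, Real.exp (b / 16 * (Dm l).card) ≤ (3 / 2) *
      ∑ i : Fin 4, (s ^ (Z 0 (l.map (sy i))).card + s ^ (Z 1 (l.map (sy i))).card) := by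
    intro l hl
    set Y : ℝ := ∑ i : Fin 4, (((Z 0 (l.map (sy i))).card : ℝ) + (Z 1 (l.map (sy i))).card) with hY
    have h1 : ((Dm l).card : ℝ) ≤ 8 + 2 * Y := by
      have := card_Dm (mem_CF.1 hl).1
      have h2 : (((Dm l).card : ℕ) : ℝ) ≤ ((8 + 2 * ∑ i : Fin 4,
        ((Z 0 (l.map (sy i))).card + (Z 1 (l.map (sy i))).card) : ℕ) : ℝ) := by
        exact_mod_cast this
      refine h2.trans (le_of_eq ?_)
      rw [hY]
      push_cast
      ring
    have h2 : b / 16 * (Dm l).card ≤ b + b * (Y / 8) := by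
      calc b / 16 * (Dm l).card ≤ b / 16 * (8 + 2 * Y) := by gcongr
        _ = b / 2 + b * (Y / 8) := by ring
        _ ≤ b + b * (Y / 8) := by linarith
    have h3 : ∃ i ∈ (Finset.univ : Finset (Fin 4)), Y / 8 ≤
        max ((Z 0 (l.map (sy i))).card : ℝ) ((Z 1 (l.map (sy i))).card : ℝ) := by
      refine Finset.exists_le_of_sum_le ⟨0, Finset.mem_univ _⟩ ?_
      have e1 : ∑ _i : Fin 4, Y / 8 = Y / 2 := by
        rw [Finset.sum_const, Finset.card_univ, Fintype.card_fin, nsmul_eq_mul]
        push_cast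
        ring
      rw [e1, hY, Finset.sum_div]
      refine Finset.sum_le_sum (fun i _ => ?_)
      have h4 := le_max_left ((Z 0 (l.map (sy i))).card : ℝ) ((Z 1 (l.map (sy i))).card : ℝ)
      have h5 := le_max_right ((Z 0 (l.map (sy i))).card : ℝ) ((Z 1 (l.map (sy i))).card : ℝ)
      linarith
    obtain ⟨i, -, h4⟩ := h3
    have h5 : Real.exp (b * (Y / 8)) ≤ s ^ (Z 0 (l.map (sy i))).card +
        s ^ (Z 1 (l.map (sy i))).card := by
      rw [← e1, ← e1]
      rcases le_max_iff.1 h4 with h6 | h6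
      · have h7 : Real.exp (b * (Y / 8)) ≤ Real.exp (b * ((Z 0 (l.map (sy i))).card : ℝ)) := by
          apply Real.exp_le_exp.2; gcongr
        have h8 := Real.exp_pos (b * ((Z 1 (l.map (sy i))).card : ℝ))
        linarith
      · have h7 : Real.exp (b * (Y / 8)) ≤ Real.exp (b * ((Z 1 (l.map (sy i))).card : ℝ)) := by
          apply Real.exp_le_exp.2; gcongr
        have h8 := Real.exp_pos (b * ((Z 0 (l.map (sy i))).card : ℝ))
        linarith
    have hs0 : 0 < s := by linarith
    calc Real.exp (b / 16 * (Dm l).card) ≤ Real.exp (b + b * (Y / 8)) := Real.exp_le_exp.2 h2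
      _ = s * Real.exp (b * (Y / 8)) := by rw [Real.exp_add, heb]
      _ ≤ (3 / 2) * Real.exp (b * (Y / 8)) := by
          gcongr
      _ ≤ (3 / 2) * (s ^ (Z 0 (l.map (sy i))).card +
          s ^ (Z 1 (l.map (sy i))).card) := by gcongr
      _ ≤ _ := by
          gcongr
          exact Finset.single_le_sum (f := fun i => s ^ (Z 0 (l.map (sy i))).card +
            s ^ (Z 1 (l.map (sy i))).card) (fun _ _ => by positivity)
            (Finset.mem_univ i)
  refine (Finset.sum_le_sum key).trans ?_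
  rw [← Finset.mul_sum, Finset.sum_comm]
  have h6 : ∀ i ∈ (Finset.univ : Finset (Fin 4)),
      ∑ l ∈ CF n, (s ^ (Z 0 (l.map (sy i))).card +
        s ^ (Z 1 (l.map (sy i))).card) ≤ 4 * ((CF n).card : ℝ) := by
    intro i _
    rw [Finset.sum_add_distrib,
      sum_map (sy_ok i) n (fun l => s ^ (Z 0 l).card),
      sum_map (sy_ok i) n (fun l => s ^ (Z 1 l).card)]
    linarith [exp_Z' hg 0 n, exp_Z' hg 1 n]
  have h7 := Finset.sum_le_sum h6
  rw [Finset.sum_const, Finset.card_univ, Fintype.card_fin, nsmul_eq_mul] at h7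
  push_cast at h7
  have h8 : (0 : ℝ) ≤ (CF n).card := by positivity
  linarith

end Run7.h647.PD
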