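import Pool.Agent.Run7.h738.PC.Vol

/-! # Insertion of single pendant edges at selected points of percolation clusters -/

set_option autoImplicit false
set_option linter.deprecated false

namespace Run7.h647.PD

open scoped Classical ENNReal
open Run7.h738.EX Run7.h738.PC MeasureTheory

variable {V : Type} (L : Lay V)

/-- selected points at which pendant edges can be inserted and recognised -/
structure Dec (m : ℕ) where
  G : Finset V → Finset V
  sub : ∀ A, G A ⊆ A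
  top : ∀ A, ∀ v ∈ G A, L.up v ∉ A
  key : Finset V → Finset V → Fin m
  dec : ∀ A A' S S' : Finset V, S ⊆ G A → S' ⊆ G A' → S.Nonempty → S'.Nonempty →
    insA L A 1 S = insA L A' 1 S' → key A S = key A' S' → A = A'

theorem mem_ins1 {A S : Finset V} {u : V} :
    u ∈ insA L A 1 S ↔ u ∈ A ∨ ∃ v ∈ S, u = L.up v := by
  rw [mem_insA]
  constructor
  · rintro (h | ⟨v, hv, t, ht, h⟩)
    · exact Or.inl h
    · have : t = 0 := by omega
      subst this
      exact Or.inr ⟨v, hv, h⟩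
  · rintro (h | ⟨v, hv, h⟩)
    · exact Or.inl h
    · exact Or.inr ⟨v, hv, 0, by omega, h⟩

variable {m : ℕ} (D : Dec L m)

theorem dec_inj {o : V} {q q' : Finset V × Finset (Sym2 V)} (hq : Pat L o q)
    (hq' : Pat L o q') {S S' : Finset V} (hS : S ⊆ D.G q.1) (hS' : S' ⊆ D.G q'.1)
    (hne : S.Nonempty) (hne' : S'.Nonempty) (hA : insA L q.1 1 S = insA L q'.1 1 S')
    (hO : insO L q.2 1 S = insO L q'.2 1 S') (hk : D.key q.1 S = D.key q'.1 S') :
    q = q' ∧ S = S' := by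
  have e1 : q.1 = q'.1 := D.dec _ _ _ _ hS hS' hne hne' hA hk
  have hmS : ∀ {A S : Finset V}, S ⊆ D.G A → ∀ v, v ∈ S ↔ L.up v ∈ insA L A 1 S ∧ L.up v ∉ A := by
    intro A S hS v
    constructor
    · intro hv
      exact ⟨(mem_ins1 L).2 (Or.inr ⟨v, hv, rfl⟩), D.top _ _ (hS hv)⟩
    · rintro ⟨h1, h2⟩
      rcases (mem_ins1 L).1 h1 with h | ⟨w, hw, h⟩
      · exact absurd h h2
      · rw [L.up_inj h]
        exact hw
  have e2 : S = S' := by
    ext v
    rw [hmS hS, hmS hS', hA, e1]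
  have hOq : ∀ {q : Finset V × Finset (Sym2 V)} {S : Finset V}, Pat L o q → S ⊆ D.G q.1 →
      q.2 = (insO L q.2 1 S).filter (fun e => ∀ x ∈ e, x ∈ q.1) := by
    intro q S hq hS
    ext e
    rw [Finset.mem_filter, mem_insO]
    constructor
    · intro h
      refine ⟨Or.inl h, ?_⟩
      induction e using Sym2.ind with
      | _ v w =>
        have h1 := pat_ends L hq h
        intro x hx
        rw [Sym2.mem_iff] at hx
        rcases hx with rfl | rfl
        · exact h1.1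
        · exact h1.2.1
    · rintro ⟨h1 | ⟨v, hv, t, ht, rfl⟩, h2⟩
      · exact h1
      · exfalso
        have ht0 : t = 0 := by omega
        subst ht0
        have h3 := h2 (L.up v) (Sym2.mem_mk_right _ _)
        exact D.top _ _ (hS hv) h3
  refine ⟨Prod.ext e1 ?_, e2⟩
  rw [hOq hq hS, hOq hq' hS', hO]
  refine Finset.filter_congr ?_
  intro e _
  rw [e1]

/-- double counting -/
theorem dblD {a b : ℝ≥0∞} (ha : a ≤ 1) (hb : b ≤ 1) (o : V) {Φ : Finset V → Prop} (hΦ : Incr Φ)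
    (r N : ℕ) (hr : 1 ≤ r) :
    Z L a b o (fun A => Φ A ∧ N ≤ (D.G A).card) *
      ((N.choose r : ℝ≥0∞) * (a * b ^ L.Δ) ^ r) ≤ m * Z L a b o Φ := by
  set Ψ : Finset V → Prop := fun A => Φ A ∧ N ≤ (D.G A).card with hΨ
  set c := (a * b ^ L.Δ) ^ r with hc
  let X := Σ q : PI L o Ψ, {S : Finset V // S ∈ (D.G q.1.1).powersetCard r}
  have hsub : ∀ x : X, x.2.1 ⊆ D.G x.1.1.1 ∧ x.2.1.card = r :=
    fun x => Finset.mem_powersetCard.1 x.2.2
  let f : X → PI L o Φ × Fin m := fun x =>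
    (⟨(insA L x.1.1.1 1 x.2.1, insO L x.1.1.2 1 x.2.1),
      ins_pat L x.1.2.1 1 ((hsub x).1.trans (D.sub _)),
      hΦ _ _ (by
        unfold insA
        exact Finset.subset_union_left) x.1.2.2.1⟩, D.key x.1.1.1 x.2.1)
  have hf : Function.Injective f := by
    rintro ⟨q, S⟩ ⟨q', S'⟩ h
    have hs := hsub ⟨q, S⟩
    have hs' := hsub ⟨q', S'⟩
    simp only at hs hs'
    have h1 := congrArg (fun z : PI L o Φ × Fin m => z.1.1.1) h
    have h2 := congrArg (fun z : PI L o Φ × Fin m => z.1.1.2) h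
    have h3 := congrArg (fun z : PI L o Φ × Fin m => z.2) h
    simp only [f] at h1 h2 h3
    have hne : S.1.Nonempty := by
      rw [← Finset.card_pos, hs.2]
      exact hr
    have hne' : S'.1.Nonempty := by
      rw [← Finset.card_pos, hs'.2]
      exact hr
    obtain ⟨e1, e2⟩ := dec_inj L D q.2.1 q'.2.1 hs.1 hs'.1 hne hne' h1 h2 h3
    have e3 : q = q' := Subtype.ext e1
    subst e3
    have e4 : S = S' := Subtype.ext e2
    rw [e4]
  have h1 : ∑' x : X, W L a b (f x).1.1 ≤ m * Z L a b o Φ := by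
    refine (ENNReal.tsum_comp_le_tsum_of_injective hf
      (fun y : PI L o Φ × Fin m => W L a b y.1.1)).trans (le_of_eq ?_)
    have h3 := ENNReal.tsum_prod (f := fun (q : PI L o Φ) (_ : Fin m) => W L a b q.1)
    refine h3.trans ?_
    have h4 : ∀ q : PI L o Φ, ∑' _ : Fin m, W L a b q.1 = m * W L a b q.1 := by
      intro q
      rw [tsum_fintype, Finset.sum_const, Finset.card_univ, Fintype.card_fin, nsmul_eq_mul]
    exact (tsum_congr h4).trans ENNReal.tsum_mul_left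
  refine le_trans ?_ h1
  have h2 : ∑' x : X, W L a b x.1.1 * c ≤ ∑' x : X, W L a b (f x).1.1 := by
    refine ENNReal.tsum_le_tsum fun x => ?_
    have := W_ins L ha hb x.1.1 1 x.2.1
    rw [(hsub x).2, pow_one] at this
    exact this
  refine le_trans ?_ h2
  rw [ENNReal.tsum_sigma (fun (q : PI L o Ψ) (_ : {S : Finset V //
    S ∈ (D.G q.1.1).powersetCard r}) => W L a b q.1 * c)]
  unfold Z
  rw [← ENNReal.tsum_mul_right]
  refine ENNReal.tsum_le_tsum fun q => ?_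
  rw [tsum_fintype, Finset.sum_const, Finset.card_univ, Fintype.card_coe, Finset.card_powersetCard,
    nsmul_eq_mul]
  calc W L a b q.1 * ((N.choose r : ℝ≥0∞) * c) = (N.choose r : ℝ≥0∞) * (W L a b q.1 * c) := by ring
    _ ≤ _ := by
        gcongr
        exact q.2.2.2

/-- the exponential tail -/
theorem tailD {a b : ℝ≥0∞} (ha : a ≤ 1) (hb : b ≤ 1) (o : V) {Φ : Finset V → Prop} (hΦ : Incr Φ)
    (r B : ℕ) (hr : 1 ≤ r) (hB : 3 ≤ (B : ℝ≥0∞) * (a * b ^ L.Δ)) :
    3 ^ r * Z L a b o (fun A => Φ A ∧ (1 + B) * r ≤ (D.G A).card) ≤ m * Z L a b o Φ := by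
  refine le_trans ?_ (dblD L D ha hb o hΦ r ((1 + B) * r) hr)
  rw [mul_comm]
  refine mul_le_mul' (le_refl _) ?_
  calc (3 : ℝ≥0∞) ^ r ≤ ((B : ℝ≥0∞) * (a * b ^ L.Δ)) ^ r := pow_le_pow_left' hB r
    _ = ((B ^ r : ℕ) : ℝ≥0∞) * (a * b ^ L.Δ) ^ r := by
        rw [mul_pow]
        push_cast
        rfl
    _ ≤ _ := by
        gcongr
        exact choose_ge B r

/-- the tail, for the percolation measure -/
theorem tailP [Countable V] {p : NNReal} (h0 : 0 < p) (h1 : p < 1) (o : V)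
    {Φ : Set V → Prop} (hΦ : ∀ A B : Set V, A ⊆ B → Φ A → Φ B) (r : ℕ) (hr : 1 ≤ r) :
    3 ^ r * PB V p h1.le (Ev L o (fun C => Φ C ∧ ∃ A : Finset V, (A : Set V) = C ∧
      (1 + BB L p 0) * r ≤ (D.G A).card)) ≤ m * PB V p h1.le (Ev L o Φ) := by
  set a := (p : ℝ≥0∞) with ha
  set b := ((1 - p : NNReal) : ℝ≥0∞) with hb
  have ha1 : a ≤ 1 := by
    rw [ha]
    exact_mod_cast h1.le
  have hb1 : b ≤ 1 := by
    rw [hb]
    exact_mod_cast tsub_le_self
  have hincr : Incr (fun A : Finset V => Φ (A : Set V)) :=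
    fun A B h => hΦ _ _ (Finset.coe_subset.2 h)
  have hB := BB_ok L h0 h1 0
  rw [zero_add, pow_one] at hB
  have h2 := tailD L D ha1 hb1 o hincr r (BB L p 0) hr hB
  rw [Ev_prob, Ev_prob]
  refine le_trans (le_of_eq ?_) h2
  congr 2
  funext A
  congr 1
  apply propext
  constructor
  · rintro ⟨A', h3, h4⟩
    rw [Finset.coe_inj] at h3
    rw [← h3]
    exact h4
  · intro h
    exact ⟨A, rfl, h⟩

/-! ### Maximal values -/

/-- the points where `f` is maximal, and smaller than one step above -/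
noncomputable def GR (f : V → ℝ) (A : Finset V) : Finset V :=
  A.filter (fun v => (∀ w ∈ A, f w ≤ f v) ∧ f v < f (L.up v))

theorem mem_GR {f : V → ℝ} {A : Finset V} {v : V} :
    v ∈ GR L f A ↔ v ∈ A ∧ (∀ w ∈ A, f w ≤ f v) ∧ f v < f (L.up v) := by
  unfold GR
  rw [Finset.mem_filter]

theorem decR_mem {f : V → ℝ} {A S : Finset V} (hS : S ⊆ GR L f A) {v : V} (hv : v ∈ S) {z : V} :
    z ∈ A ↔ z ∈ insA L A 1 S ∧ f z ≤ f v := by
  have hv' := (mem_GR L).1 (hS hv)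
  constructor
  · intro hz
    exact ⟨(mem_ins1 L).2 (Or.inl hz), hv'.2.1 z hz⟩
  · rintro ⟨h1, h2⟩
    rcases (mem_ins1 L).1 h1 with h | ⟨w, hw, h⟩
    · exact h
    · exfalso
      have hw' := (mem_GR L).1 (hS hw)
      have := hw'.2.1 v hv'.1
      rw [h] at h2
      linarith [hw'.2.2]

theorem decR_top {f : V → ℝ} {A S : Finset V} (hS : S ⊆ GR L f A) (hne : S.Nonempty) {x : V}
    (hx : x ∈ insA L A 1 S) (hmax : ∀ w ∈ insA L A 1 S, f w ≤ f x) : ∃ v ∈ S, x = L.up v := by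
  rcases (mem_ins1 L).1 hx with h | h
  · exfalso
    obtain ⟨s, hs⟩ := hne
    have hs' := (mem_GR L).1 (hS hs)
    have h1 := hmax (L.up s) ((mem_ins1 L).2 (Or.inr ⟨s, hs, rfl⟩))
    have h2 := hs'.2.1 x h
    linarith [hs'.2.2]
  · exact h

/-- the selection of the maximal points -/
noncomputable def decR (f : V → ℝ) : Dec L 1 where
  G := GR L f
  sub := fun A => Finset.filter_subset _ _
  top := by
    intro A v hv hmem
    have hv' := (mem_GR L).1 hv
    have := hv'.2.1 _ hmem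
    linarith [hv'.2.2]
  key := fun _ _ => 0
  dec := by
    intro A A' S S' hS hS' hne hne' hB _
    have hBne : (insA L A 1 S).Nonempty := by
      obtain ⟨s, hs⟩ := hne
      exact ⟨L.up s, (mem_ins1 L).2 (Or.inr ⟨s, hs, rfl⟩)⟩
    obtain ⟨x, hx, hmax⟩ := Finset.exists_max_image (insA L A 1 S) f hBne
    obtain ⟨v, hv, h1⟩ := decR_top L hS hne hx hmax
    rw [hB] at hx hmax
    obtain ⟨v', hv', h1'⟩ := decR_top L hS' hne' hx hmax
    have hvv : v = v' := L.up_inj (h1.symm.trans h1')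
    subst hvv
    ext z
    rw [decR_mem L hS hv, decR_mem L hS' hv', hB]

/-! ### Ends of diameters -/

/-- a distance adapted to the height -/
structure QL (q : V → V → ℝ) : Prop where
  symm : ∀ v u, q v u = q u v
  low : ∀ z x, L.h (L.up x) ≤ L.h z → q z (L.up x) ≤ q z x

/-- ends of diameters which are not below the other end -/
noncomputable def GE (q : V → V → ℝ) (A : Finset V) : Finset V :=
  A.filter (fun v => ∃ u ∈ A, L.h u ≤ L.h v ∧ (∀ a ∈ A, ∀ b ∈ A, q a b ≤ q v u) ∧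
    q v u < q (L.up v) u)

theorem mem_GE {q : V → V → ℝ} {A : Finset V} {v : V} :
    v ∈ GE L q A ↔ v ∈ A ∧ ∃ u ∈ A, L.h u ≤ L.h v ∧ (∀ a ∈ A, ∀ b ∈ A, q a b ≤ q v u) ∧
      q v u < q (L.up v) u := by
  unfold GE
  rw [Finset.mem_filter]

/-- maximal pairs -/
def MP (q : V → V → ℝ) (B : Finset V) (x : V × V) : Prop :=
  x.1 ∈ B ∧ x.2 ∈ B ∧ ∀ a ∈ B, ∀ b ∈ B, q a b ≤ q x.1 x.2

section
variable {q : V → V → ℝ} (hq : QL L q) {A S : Finset V}
include hq

/-- the old points see only old distances below them -/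
theorem ge_low (hS : S ⊆ GE L q A) {Δ : ℝ} (hΔ : ∀ a ∈ A, ∀ b ∈ A, q a b ≤ Δ) {z w : V}
    (hz : z ∈ A) (hw : w ∈ insA L A 1 S) (h : L.h w ≤ L.h z) : q z w ≤ Δ := by
  rcases (mem_ins1 L).1 hw with h1 | ⟨x, hx, rfl⟩
  · exact hΔ z hz w h1
  · exact (hq.low z x h).trans (hΔ z hz x ((mem_GE L).1 (hS hx)).1)

/-- the old points are recognised -/
theorem ge_mem (hS : S ⊆ GE L q A) {Δ : ℝ} (hΔ : ∀ a ∈ A, ∀ b ∈ A, q a b ≤ Δ)
    (hΔ2 : ∃ a ∈ A, ∃ b ∈ A, q a b = Δ) {z : V} :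
    z ∈ A ↔ z ∈ insA L A 1 S ∧ ∀ w ∈ insA L A 1 S, L.h w ≤ L.h z → q z w ≤ Δ := by
  constructor
  · intro hz
    exact ⟨(mem_ins1 L).2 (Or.inl hz), fun w hw h => ge_low L hq hS hΔ hz hw h⟩
  · rintro ⟨h1, h2⟩
    rcases (mem_ins1 L).1 h1 with h | ⟨v, hv, rfl⟩
    · exact h
    · exfalso
      obtain ⟨hvA, u, hu, g1, g2, g3⟩ := (mem_GE L).1 (hS hv)
      have h3 := h2 u ((mem_ins1 L).2 (Or.inl hu)) (by rw [L.h_up]; omega)
      obtain ⟨a, ha, b, hb, hab⟩ := hΔ2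
      have := g2 a ha b hb
      linarith

/-- the diameter is seen from an end of a diameter -/
theorem ge_rec (hS : S ⊆ GE L q A) {Δ : ℝ} (hΔ : ∀ a ∈ A, ∀ b ∈ A, q a b ≤ Δ)
    (hΔ2 : ∃ a ∈ A, ∃ b ∈ A, q a b = Δ) {v : V} (hv : v ∈ S) :
    IsGreatest {x | ∃ w ∈ insA L A 1 S, L.h w ≤ L.h v ∧ x = q v w} Δ := by
  obtain ⟨hvA, u, hu, g1, g2, g3⟩ := (mem_GE L).1 (hS hv)
  obtain ⟨a, ha, b, hb, hab⟩ := hΔ2
  refine ⟨⟨u, (mem_ins1 L).2 (Or.inl hu), g1, ?_⟩, ?_⟩
  · have h1 := g2 a ha b hb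
    have h2 := hΔ v hvA u hu
    linarith
  · rintro _ ⟨w, hw, h1, rfl⟩
    exact ge_low L hq hS hΔ hvA hw h1

omit hq in
/-- a maximal pair of the new cluster has a new end -/
theorem ge_new (hS : S ⊆ GE L q A) (hne : S.Nonempty) {x : V × V} (hx : MP q (insA L A 1 S) x) :
    (x.1 ∉ A ∧ ∃ v ∈ S, x.1 = L.up v) ∨ (x.1 ∈ A ∧ ∃ v ∈ S, x.2 = L.up v) := by
  obtain ⟨s, hs⟩ := hne
  obtain ⟨hsA, u, hu, g1, g2, g3⟩ := (mem_GE L).1 (hS hs)
  have h1 := hx.2.2 (L.up s) ((mem_ins1 L).2 (Or.inr ⟨s, hs, rfl⟩)) u ((mem_ins1 L).2 (Or.inl hu))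
  by_cases h : x.1 ∈ A
  · right
    refine ⟨h, ?_⟩
    rcases (mem_ins1 L).1 hx.2.1 with h2 | h2
    · exfalso
      have := g2 x.1 h x.2 h2
      linarith
    · exact h2
  · left
    refine ⟨h, ?_⟩
    rcases (mem_ins1 L).1 hx.1 with h2 | h2
    · exact absurd h2 h
    · exact h2

end

theorem exists_MP (q : V → V → ℝ) {B : Finset V} (hB : B.Nonempty) : ∃ x, MP q B x := by
  obtain ⟨x, hx, h⟩ := Finset.exists_max_image (B ×ˢ B) (fun x => q x.1 x.2) (hB.product hB)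
  rw [Finset.mem_product] at hx
  exact ⟨x, hx.1, hx.2, fun a ha b hb => h (a, b) (Finset.mem_product.2 ⟨ha, hb⟩)⟩

/-- the selection of the ends of the diameters -/
noncomputable def decE {q : V → V → ℝ} (hq : QL L q) : Dec L 2 where
  G := GE L q
  sub := fun A => Finset.filter_subset _ _
  top := by
    intro A v hv hmem
    obtain ⟨hvA, u, hu, g1, g2, g3⟩ := (mem_GE L).1 hv
    have := g2 _ hmem u hu
    linarith
  key := fun A S => if ∃ h : (∃ x, MP q (insA L A 1 S) x), h.choose.1 ∈ A then 1 else 0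
  dec := by
    intro A A' S S' hS hS' hne hne' hB hk
    have hBne : (insA L A 1 S).Nonempty := by
      obtain ⟨s, hs⟩ := hne
      exact ⟨L.up s, (mem_ins1 L).2 (Or.inr ⟨s, hs, rfl⟩)⟩
    rw [← hB] at hk
    have hex := exists_MP q hBne
    have hsp := hex.choose_spec
    have c1 := ge_new L hS hne hsp
    have c1' := ge_new L hS' hne' (x := hex.choose) (by rw [← hB]; exact hsp)
    set x := hex.choose with hxd
    have hk1 : (if ∃ h : (∃ x, MP q (insA L A 1 S) x), h.choose.1 ∈ A then (1 : Fin 2) else 0) =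
        if x.1 ∈ A then 1 else 0 := by
      congr 1
      apply propext
      exact ⟨fun ⟨_, h⟩ => h, fun h => ⟨hex, h⟩⟩
    have hk2 : (if ∃ h : (∃ x, MP q (insA L A 1 S) x), h.choose.1 ∈ A' then (1 : Fin 2) else 0) =
        if x.1 ∈ A' then 1 else 0 := by
      congr 1
      apply propext
      exact ⟨fun ⟨_, h⟩ => h, fun h => ⟨hex, h⟩⟩
    rw [hk1, hk2] at hk
    -- a common site of `S` and `S'`
    obtain ⟨v, hv, hv'⟩ : ∃ v, v ∈ S ∧ v ∈ S' := by
      rcases c1 with ⟨d1, v, hv, d2⟩ | ⟨d1, v, hv, d2⟩ <;>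
        rcases c1' with ⟨d1', v', hv', d2'⟩ | ⟨d1', v', hv', d2'⟩
      · have : v = v' := L.up_inj (d2.symm.trans d2')
        exact ⟨v, hv, this ▸ hv'⟩
      · rw [if_neg d1, if_pos d1'] at hk
        exact absurd hk (by decide)
      · rw [if_pos d1, if_neg d1'] at hk
        exact absurd hk (by decide)
      · have : v = v' := L.up_inj (d2.symm.trans d2')
        exact ⟨v, hv, this ▸ hv'⟩
    obtain ⟨hvA, u, hu, g1, g2, g3⟩ := (mem_GE L).1 (hS hv)
    obtain ⟨hvA', u', hu', g1', g2', g3'⟩ := (mem_GE L).1 (hS' hv')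
    have r1 := ge_rec L hq hS g2 ⟨v, hvA, u, hu, rfl⟩ hv
    have r2 := ge_rec L hq hS' g2' ⟨v, hvA', u', hu', rfl⟩ hv'
    rw [← hB] at r2
    have hΔ : q v u = q v u' := r1.unique r2
    ext z
    rw [ge_mem L hq hS g2 ⟨v, hvA, u, hu, rfl⟩, ge_mem L hq hS' g2' ⟨v, hvA', u', hu', rfl⟩, hB,
      hΔ]

end Run7.h647.PD
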