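import Pool.Agent.Run7.h647.PD.Cl
import Pool.Agent.Run7.h738.PG.Grow2

/-! # Diametral sites of the uniform self-avoiding polygon -/

set_option autoImplicit false

namespace Run7.h647.PD

open scoped Classical
open Run7.h206.SV

theorem Adj_iff_adj {p q : P} : Adj p q ↔ Pool.Agent.W840.CT.adj p q := by
  unfold Adj Pool.Agent.W840.CT.adj
  rw [abs_sub_comm p.1, abs_sub_comm p.2]

theorem CF_eq (n : ℕ) : CF n = Run7.h738.PG.CLf n := by
  ext l
  unfold Run7.h738.PG.CLf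
  rw [mem_CF, mem_SF, Finset.mem_filter, Run7.h738.BV.mem_LSf]
  have e1 : Adj = Pool.Agent.W840.CT.adj := by
    funext p q
    exact propext Adj_iff_adj
  have e2 : Adj 0 (l.getLastD 0) ↔ Run7.h738.PG.Cl (l.getLastD 0) := by
    unfold Run7.h738.PG.Cl Run7.h738.ND.D Adj
    rw [abs_sub_comm, abs_sub_comm (0 : P).2, Int.abs_eq_natAbs, Int.abs_eq_natAbs]
    constructor
    · intro h
      exact_mod_cast h
    · intro h
      exact_mod_cast h
  rw [e2, e1]
  rfl

theorem gr_ex : ∃ g : ℕ, Gr g := by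
  obtain ⟨g, h1, h2⟩ := Run7.h738.PG.CL_grow
  refine ⟨g, h1, fun n r => ?_⟩
  rw [CF_eq, CF_eq]
  exact h2 n r

/-- rooted oriented polygons with `m` sites -/
def Lp (m : ℕ) (f : ZMod m → P) : Prop :=
  f 0 = 0 ∧ Function.Injective f ∧
    ∀ i : ZMod m, |(f (i + 1)).1 - (f i).1| + |(f (i + 1)).2 - (f i).2| = 1

/-- the list of the sites -/
noncomputable def ls {n : ℕ} (f : ZMod (n + 1) → P) : List P :=
  (List.range (n + 1)).map (fun k : ℕ => f (k : ZMod (n + 1)))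

theorem mem_ls {n : ℕ} {f : ZMod (n + 1) → P} {p : P} : p ∈ ls f ↔ ∃ i, f i = p := by
  unfold ls
  rw [List.mem_map]
  constructor
  · rintro ⟨k, -, hk⟩
    exact ⟨_, hk⟩
  · rintro ⟨i, hi⟩
    refine ⟨i.val, List.mem_range.2 (ZMod.val_lt i), ?_⟩
    rw [ZMod.natCast_zmod_val, hi]

theorem ls_mem {n : ℕ} (hn : 1 ≤ n) {f : ZMod (n + 1) → P} (hf : Lp (n + 1) f) : ls f ∈ CF n := by
  obtain ⟨h1, h2, h3⟩ := hf
  rw [mem_CF, mem_SF]
  refine ⟨⟨by simp [ls], ?_, ?_, ?_⟩, ?_⟩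
  · unfold ls
    rw [List.range_succ_eq_map]
    simp [h1]
  · unfold ls
    rw [List.isChain_iff_getElem]
    intro i hi
    simp only [List.length_map, List.length_range] at hi
    simp only [List.getElem_map, List.getElem_range]
    have := h3 ((i : ℕ) : ZMod (n + 1))
    unfold Adj
    rw [abs_sub_comm, abs_sub_comm (f ((i : ℕ) : ZMod (n + 1))).2]
    push_cast
    exact this
  · unfold ls
    refine List.Nodup.map_on ?_ List.nodup_range
    intro i hi j hj hij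
    rw [List.mem_range] at hi hj
    exact Run7.h738.PG.nat_eq hi hj (h2 hij)
  · have e : (ls f).getLastD 0 = f ((n : ℕ) : ZMod (n + 1)) := by
      unfold ls
      rw [List.range_succ, List.map_append, List.getLastD_eq_getLast?, List.getLast?_append]
      simp
    rw [e]
    have h4 := h3 ((n : ℕ) : ZMod (n + 1))
    have e2 : ((n : ℕ) : ZMod (n + 1)) + 1 = 0 := by exact_mod_cast ZMod.natCast_self (n + 1)
    rw [e2, h1] at h4
    exact h4

theorem ls_inj {n : ℕ} {f f' : ZMod (n + 1) → P} (h : ls f = ls f') : f = f' := by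
  funext i
  have hi := ZMod.val_lt i
  have h1 : (ls f)[i.val]? = (ls f')[i.val]? := by rw [h]
  unfold ls at h1
  rw [List.getElem?_map, List.getElem?_map, List.getElem?_range hi] at h1
  simpa using h1

theorem card_Lp {n : ℕ} (hn : 1 ≤ n) :
    (CF n).card = ({f | Lp (n + 1) f} : Set (ZMod (n + 1) → P)).ncard := by
  rw [CF_eq]
  exact Run7.h738.PG.CLf_eq hn

theorem Lp_fin (n : ℕ) : ({f | Lp (n + 1) f} : Set (ZMod (n + 1) → P)).Finite :=
  Run7.h738.PG.Loop_finite (n + 1) (by omega)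

/-- the polygons as a finset -/
noncomputable def LpF (n : ℕ) : Finset (ZMod (n + 1) → P) := (Lp_fin n).toFinset

theorem mem_LpF {n : ℕ} {f : ZMod (n + 1) → P} : f ∈ LpF n ↔ Lp (n + 1) f := by
  unfold LpF
  rw [Set.Finite.mem_toFinset]
  rfl

theorem image_ls {n : ℕ} (hn : 1 ≤ n) : (LpF n).image ls = CF n := by
  refine Finset.eq_of_subset_of_card_le ?_ ?_
  · intro l hl
    rw [Finset.mem_image] at hl
    obtain ⟨f, hf, rfl⟩ := hl
    exact ls_mem hn (mem_LpF.1 hf)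
  · rw [Finset.card_image_of_injective _ (fun f f' h => ls_inj h), card_Lp hn]
    unfold LpF
    rw [Set.ncard_eq_toFinset_card _ (Lp_fin n)]

theorem sum_ls {n : ℕ} (hn : 1 ≤ n) (F : List P → ℝ) : ∑ f ∈ LpF n, F (ls f) = ∑ l ∈ CF n, F l := by
  rw [← image_ls hn, Finset.sum_image (fun f _ f' _ h => ls_inj h)]

/-- the diametral times -/
def Dt {m : ℕ} (f : ZMod m → P) : Set (ZMod m) := {i | ∃ j, ∀ k l, D2 (f k) (f l) ≤ D2 (f i) (f j)}

theorem Dt_card {n : ℕ} {f : ZMod (n + 1) → P} (hf : Lp (n + 1) f) :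
    (Dt f).ncard ≤ (Dm (ls f)).card := by
  rw [← Set.ncard_coe_finset]
  refine Set.ncard_le_ncard_of_injOn f ?_ (fun i _ j _ h => hf.2.1 h) (Finset.finite_toSet _)
  rintro i ⟨j, hj⟩
  unfold Dm
  rw [Finset.mem_coe, Finset.mem_filter, List.mem_toFinset]
  have hne : ls f ≠ [] := by
    intro h
    have : f 0 ∈ ls f := mem_ls.2 ⟨0, rfl⟩
    rw [h] at this
    simp at this
  refine ⟨mem_ls.2 ⟨i, rfl⟩, f j, mem_ls.2 ⟨j, rfl⟩, ?_⟩
  refine le_antisymm (le_dl (mem_ls.2 ⟨i, rfl⟩) (mem_ls.2 ⟨j, rfl⟩)) ?_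
  obtain ⟨p, hp, q, hq, h⟩ := dl_mem hne
  obtain ⟨k, rfl⟩ := mem_ls.1 hp
  obtain ⟨l, rfl⟩ := mem_ls.1 hq
  rw [← h]
  exact hj k l

theorem main : ∃ c : ℝ, 0 < c ∧ ∀ n : ℕ, 1 ≤ n →
    ∑ f ∈ LpF n, Real.exp (c * (Dt f).ncard) ≤ 24 * (LpF n).card := by
  obtain ⟨g, hg⟩ := gr_ex
  have hg0 : (0 : ℝ) < g := by exact_mod_cast hg.1
  refine ⟨Real.log (1 + 1 / (2 * g)) / 16, ?_, fun n hn => ?_⟩
  · have : (0 : ℝ) < 1 / (2 * g) := by positivity
    exact div_pos (Real.log_pos (by linarith)) (by norm_num)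
  · have hc : 0 ≤ Real.log (1 + 1 / (2 * (g : ℝ))) / 16 := by
      have : (0 : ℝ) < 1 / (2 * g) := by positivity
      exact (div_pos (Real.log_pos (by linarith)) (by norm_num)).le
    have h1 := exp_Dm' hg n
    rw [← sum_ls hn (fun l => Real.exp (Real.log (1 + 1 / (2 * (g : ℝ))) / 16 * (Dm l).card))] at h1
    have h2 : (CF n).card = (LpF n).card := by
      rw [← image_ls hn, Finset.card_image_of_injective _ (fun f f' h => ls_inj h)]
    rw [h2] at h1
    refine le_trans (Finset.sum_le_sum (fun f hf => ?_)) h1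
    apply Real.exp_le_exp.2
    refine mul_le_mul_of_nonneg_left ?_ hc
    exact_mod_cast Dt_card (mem_LpF.1 hf)

end Run7.h647.PD
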