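import Pool.Agent.Run7.h647.PD.Core
import Pool.Agent.Run7.h647.DM.Zd

/-! # Tails and means of the numbers of selected points; the cubic lattices -/

set_option autoImplicit false
set_option linter.deprecated false

namespace Run7.h647.PD

open scoped Classical ENNReal
open Run7.h738.EX Run7.h738.PC Run7.h647.DM MeasureTheory

section mean
variable {V : Type} (L : Lay V)

/-- the sum of the probabilities is a mean -/
theorem sumT [Countable V] (μ : Measure (Sym2 V → Bool)) (o : V) (Φ : Set V → Prop)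
    {T : Set V → Set V} (hT : ∀ C, T C ⊆ C) :
    ∑' v : V, μ (Ev L o (fun C => Φ C ∧ v ∈ T C)) =
      ∫⁻ ω, (if ω ∈ Ev L o Φ then ((T (Cl L ω o)).ncard : ℝ≥0∞) else 0) ∂μ := by
  have h1 : ∀ v, μ (Ev L o (fun C => Φ C ∧ v ∈ T C)) =
      ∫⁻ ω, (Ev L o (fun C => Φ C ∧ v ∈ T C)).indicator 1 ω ∂μ := by
    intro v
    rw [lintegral_indicator_one (Ev_meas L o _)]
  simp_rw [h1]
  rw [← lintegral_tsum (fun v => (measurable_one.indicator (Ev_meas L o _)).aemeasurable)]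
  refine lintegral_congr fun ω => ?_
  by_cases hω : ω ∈ Ev L o Φ
  · rw [if_pos hω]
    obtain ⟨hfin, hΦ⟩ := hω
    have hTf : (T (Cl L ω o)).Finite := hfin.subset (hT _)
    set A := hTf.toFinset with hA
    have hAC : (A : Set V) = T (Cl L ω o) := hTf.coe_toFinset
    have h2 : ∀ v, (Ev L o (fun C => Φ C ∧ v ∈ T C)).indicator (1 : (Sym2 V → Bool) → ℝ≥0∞) ω =
        if v ∈ A then 1 else 0 := by
      intro v
      have h3 : ω ∈ Ev L o (fun C => Φ C ∧ v ∈ T C) ↔ v ∈ A := by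
        rw [← Finset.mem_coe, hAC]
        exact ⟨fun h => h.2.2, fun h => ⟨hfin, hΦ, h⟩⟩
      by_cases h4 : v ∈ A
      · rw [Set.indicator_of_mem (h3.2 h4), if_pos h4]
        rfl
      · rw [Set.indicator_of_notMem (fun h => h4 (h3.1 h)), if_neg h4]
    simp_rw [h2]
    rw [tsum_eq_sum (s := A) (fun v hv => if_neg hv), ← hAC,
      Set.ncard_coe_finset, Finset.sum_congr rfl (fun v hv => if_pos hv), Finset.sum_const]
    simp
  · rw [if_neg hω]
    rw [ENNReal.tsum_eq_zero]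
    intro v
    exact Set.indicator_of_notMem (fun h => hω (Ev_mono L o (fun C h => h.1) h)) _

/-- the lower bound -/
theorem meanT_ge [Countable V] (μ : Measure (Sym2 V → Bool)) (o : V) (Φ : Set V → Prop)
    {T : Set V → Set V} (hT : ∀ C, T C ⊆ C)
    (hne : ∀ C : Set V, C.Finite → C.Nonempty → (T C).Nonempty) :
    μ (Ev L o Φ) ≤ ∑' v : V, μ (Ev L o (fun C => Φ C ∧ v ∈ T C)) := by
  rw [sumT L μ o Φ hT, ← lintegral_indicator_one (Ev_meas L o Φ)]
  refine lintegral_mono fun ω => ?_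
  by_cases hω : ω ∈ Ev L o Φ
  · rw [Set.indicator_of_mem hω, if_pos hω]
    have h1 : 1 ≤ (T (Cl L ω o)).ncard := by
      rw [Nat.succ_le_iff, Set.ncard_pos (hω.1.subset (hT _))]
      exact hne _ hω.1 ⟨o, self_Cl L ω o⟩
    show (1 : ℝ≥0∞) ≤ _
    exact_mod_cast h1
  · rw [Set.indicator_of_notMem hω, if_neg hω]

/-- the upper bound -/
theorem meanT_le [Countable V] (μ : Measure (Sym2 V → Bool)) (o : V) (Φ : Set V → Prop)
    {T : Set V → Set V} (hT : ∀ C, T C ⊆ C) {K : ℝ} (hK0 : 0 < K)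
    (htail : ∀ j : ℕ, μ (Ev L o (fun C => Φ C ∧ K * (1 + (j : ℝ)) < ((T C).ncard : ℝ))) ≤
      ENNReal.ofReal (Real.exp (-(j : ℝ))) * μ (Ev L o Φ)) :
    ∑' v : V, μ (Ev L o (fun C => Φ C ∧ v ∈ T C)) ≤
      ENNReal.ofReal (3 * K) * μ (Ev L o Φ) := by
  set F : ℕ → Set (Sym2 V → Bool) := fun j =>
    Ev L o (fun C => Φ C ∧ K * (1 + (j : ℝ)) < ((T C).ncard : ℝ)) with hF
  have hpt : ∀ ω, (if ω ∈ Ev L o Φ then ((T (Cl L ω o)).ncard : ℝ≥0∞) else 0) ≤
      ENNReal.ofReal K * ((Ev L o Φ).indicator 1 ω + ∑' j : ℕ, (F j).indicator 1 ω) := by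
    intro ω
    by_cases hω : ω ∈ Ev L o Φ
    · rw [if_pos hω, Set.indicator_of_mem hω]
      refine (nat_le_ind hK0 _).trans (le_of_eq ?_)
      congr 2
      refine tsum_congr fun j => ?_
      have h3 : ω ∈ F j ↔ K * (1 + (j : ℝ)) < ((T (Cl L ω o)).ncard : ℝ) :=
        ⟨fun h => h.2.2, fun h => ⟨hω.1, hω.2, h⟩⟩
      by_cases h4 : K * (1 + (j : ℝ)) < ((T (Cl L ω o)).ncard : ℝ)
      · rw [if_pos h4, Set.indicator_of_mem (h3.2 h4)]
        rfl
      · rw [if_neg h4, Set.indicator_of_notMem (fun h => h4 (h3.1 h))]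
    · rw [if_neg hω]
      exact bot_le
  rw [sumT L μ o Φ hT]
  refine (lintegral_mono hpt).trans ?_
  have hm : ∀ j, Measurable ((F j).indicator (1 : (Sym2 V → Bool) → ℝ≥0∞)) := fun j =>
    measurable_one.indicator (Ev_meas L o _)
  have hsum : Measurable (fun ω => (Ev L o Φ).indicator (1 : (Sym2 V → Bool) → ℝ≥0∞) ω +
      ∑' j : ℕ, (F j).indicator 1 ω) :=
    (measurable_one.indicator (Ev_meas L o Φ)).add (Measurable.ennreal_tsum hm)
  rw [lintegral_const_mul _ hsum, lintegral_add_left (measurable_one.indicator (Ev_meas L o Φ)),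
    lintegral_indicator_one (Ev_meas L o Φ), lintegral_tsum (fun j => (hm j).aemeasurable)]
  have h5 : ∑' j : ℕ, ∫⁻ ω, (F j).indicator 1 ω ∂μ ≤ 2 * μ (Ev L o Φ) := by
    calc ∑' j : ℕ, ∫⁻ ω, (F j).indicator 1 ω ∂μ
        ≤ ∑' j : ℕ, ENNReal.ofReal (Real.exp (-(j : ℝ))) * μ (Ev L o Φ) := by
          refine ENNReal.tsum_le_tsum fun j => ?_
          rw [lintegral_indicator_one (Ev_meas L o _)]
          exact htail j
      _ = (∑' j : ℕ, ENNReal.ofReal (Real.exp (-(j : ℝ)))) * μ (Ev L o Φ) :=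
          ENNReal.tsum_mul_right
      _ ≤ 2 * μ (Ev L o Φ) := by
          gcongr
          exact sum_exp
  calc ENNReal.ofReal K * (μ (Ev L o Φ) + ∑' j : ℕ, ∫⁻ ω, (F j).indicator 1 ω ∂μ)
      ≤ ENNReal.ofReal K * (μ (Ev L o Φ) + 2 * μ (Ev L o Φ)) := by gcongr
    _ = ENNReal.ofReal (3 * K) * μ (Ev L o Φ) := by
        rw [ENNReal.ofReal_mul (by norm_num), show ENNReal.ofReal 3 = 3 by norm_num]
        ring

end mean

section trans
variable {V : Type} [AddCommGroup V] [Countable V] (L : Lay V)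
  (hadj : ∀ u v w : V, L.adj (v + u) (w + u) ↔ L.adj v w)
include hadj

/-- one term of the mass transport -/
theorem term_eqT (p : NNReal) (hp : p ≤ 1) (Φ : Set V → Prop) {T : Set V → Set V}
    (hT : ∀ C, T C ⊆ C) (hTe : ∀ (C : Set V) (u v : V), v ∈ T {z | z + u ∈ C} ↔ v + u ∈ T C)
    (x : V) :
    PB V p hp (Ev L 0 (fun C => 0 ∈ T C ∧ x ∈ C ∧ Φ {z | z + x ∈ C})) =
      PB V p hp (Ev L 0 (fun C => Φ C ∧ -x ∈ T C)) := by
  rw [prob_TT L hadj p hp (-x) 0]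
  congr 1
  ext ω
  rw [zero_add]
  unfold Ev
  simp only [Set.mem_setOf_eq]
  have e1 : {z : V | z + x + -x ∈ Cl L ω (-x)} = Cl L ω (-x) := by
    ext z
    simp
  have e2 : (0 : V) ∈ T {z | z + -x ∈ Cl L ω (-x)} ↔ -x ∈ T (Cl L ω (-x)) := by
    rw [hTe, zero_add]
  rw [e2]
  constructor
  · rintro ⟨h1, h2, h3, h4⟩
    have h5 : (0 : V) ∈ Cl L ω (-x) := by
      have : x + -x ∈ Cl L ω (-x) := h3
      rwa [add_neg_cancel] at this
    have h6 := Cl_symm L h5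
    rw [h6]
    rw [e1] at h4
    exact ⟨h1, h4, h2⟩
  · rintro ⟨h1, h2, h3⟩
    have h6 := Cl_symm L (hT _ h3)
    rw [h6]
    rw [h6] at e1
    refine ⟨h1, h3, ?_, ?_⟩
    · show x + -x ∈ _
      rw [add_neg_cancel]
      exact self_Cl L ω 0
    · rw [e1]
      exact h2

theorem massT (p : NNReal) (hp : p ≤ 1) (Φ : Set V → Prop) {T : Set V → Set V}
    (hT : ∀ C, T C ⊆ C) (hTe : ∀ (C : Set V) (u v : V), v ∈ T {z | z + u ∈ C} ↔ v + u ∈ T C) :
    ∑' x : V, PB V p hp (Ev L 0 (fun C => 0 ∈ T C ∧ x ∈ C ∧ Φ {z | z + x ∈ C})) =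
      ∑' v : V, PB V p hp (Ev L 0 (fun C => Φ C ∧ v ∈ T C)) := by
  rw [← (Equiv.neg V).tsum_eq (fun v => PB V p hp (Ev L 0 (fun C => Φ C ∧ v ∈ T C)))]
  exact tsum_congr fun x => term_eqT L hadj p hp Φ hT hTe x

end trans

section zd
variable {d : ℕ}

theorem Ev_Ls (i j : Fin d × Bool) (o : Fin d → ℤ) (Φ : Set (Fin d → ℤ) → Prop) :
    Ev (Ls i) o Φ = Ev (Ls j) o Φ := rfl

/-- the constant -/
noncomputable def Kd (d : ℕ) (p : NNReal) : ℝ := 30 * (d : ℝ) ^ 2 / ((p : ℝ) * (1 - p) ^ (2 * d))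

theorem three_pow (d : ℕ) : 2 * d + 1 ≤ 3 ^ d := by
  induction d with
  | zero => norm_num
  | succ k ih =>
    rw [pow_succ]
    omega

/-- **the tail** -/
theorem tail_zd {m : ℕ} (hm : m ≤ 2) (D : ∀ i : Fin d × Bool, Dec (Ls i) m) (i0 : Fin d × Bool)
    {T : Set (Fin d → ℤ) → Set (Fin d → ℤ)}
    (hT : ∀ A : Finset (Fin d → ℤ), ∀ v ∈ T (A : Set (Fin d → ℤ)), ∃ i, v ∈ (D i).G A)
    {p : NNReal} (h0 : 0 < p) (h1 : p < 1) (o : Fin d → ℤ) {Φ : Set (Fin d → ℤ) → Prop}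
    (hΦ : ∀ A B : Set (Fin d → ℤ), A ⊆ B → Φ A → Φ B) {x : ℝ} (hx : 0 ≤ x) :
    PB _ p h1.le (Ev (Ls i0) o (fun C => Φ C ∧ Kd d p * (1 + x) < ((T C).ncard : ℝ))) ≤
      ENNReal.ofReal (Real.exp (-x)) * PB _ p h1.le (Ev (Ls i0) o Φ) := by
  have hd : 1 ≤ d := i0.1.pos
  have hd' : (1 : ℝ) ≤ d := by exact_mod_cast hd
  obtain ⟨r, hr⟩ : ∃ r, r = ⌈x⌉₊ + d + 1 := ⟨_, rfl⟩
  set P := PB (Fin d → ℤ) p h1.le with hP
  have hΔ : ∀ i : Fin d × Bool, (Ls i).Δ = 2 * d := fun i => rfl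
  have hBi : ∀ i : Fin d × Bool, (1 + (BB (Ls i) p 0 : ℝ)) ≤ 5 / ((p : ℝ) * (1 - p) ^ (2 * d)) := by
    intro i
    have := BB_le (Ls i) h0 h1 (le_refl 0)
    rw [zero_add, pow_one, hΔ] at this
    exact this
  have hq : 0 < (p : ℝ) * (1 - p) ^ (2 * d) := by
    have := q_pos (Ls i0) h0 h1
    rwa [hΔ] at this
  set c := (p : ℝ) * (1 - p) ^ (2 * d) with hc
  set E : Fin d × Bool → Set (Fin d → ℤ) → Prop := fun i C => Φ C ∧
    ∃ A : Finset (Fin d → ℤ), (A : Set (Fin d → ℤ)) = C ∧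
      (1 + BB (Ls i) p 0) * r ≤ ((D i).G A).card with hE
  have hrx : (r : ℝ) ≤ (1 + x) * (3 * d) := by
    have := (Nat.ceil_lt_add_one hx).le
    rw [hr]
    push_cast
    nlinarith
  have hsub : Ev (Ls i0) o (fun C => Φ C ∧ Kd d p * (1 + x) < ((T C).ncard : ℝ)) ⊆
      ⋃ i ∈ (Finset.univ : Finset (Fin d × Bool)), Ev (Ls i0) o (E i) := by
    rintro ω ⟨hfin, hΦω, hbig⟩
    rw [Set.mem_iUnion₂]
    by_contra hcon
    push Not at hcon
    set A := hfin.toFinset with hA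
    have hAC : (A : Set (Fin d → ℤ)) = Cl (Ls i0) ω o := hfin.coe_toFinset
    have hall : ∀ i ∈ (Finset.univ : Finset (Fin d × Bool)), (((D i).G A).card : ℝ) ≤
        5 / c * r := by
      intro i hi
      have h2 : ¬ (1 + BB (Ls i) p 0) * r ≤ ((D i).G A).card := by
        intro h
        exact hcon i hi ⟨hfin, hΦω, A, hAC, h⟩
      push Not at h2
      have h3 : (((D i).G A).card : ℝ) ≤ (1 + (BB (Ls i) p 0 : ℝ)) * r := by
        exact_mod_cast h2.le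
      exact h3.trans (mul_le_mul_of_nonneg_right (hBi i) (Nat.cast_nonneg _))
    have h5 : ((T (Cl (Ls i0) ω o)).ncard : ℝ) ≤
        ∑ i ∈ (Finset.univ : Finset (Fin d × Bool)), (((D i).G A).card : ℝ) := by
      have h6 : T (Cl (Ls i0) ω o) ⊆ (((Finset.univ : Finset (Fin d × Bool)).biUnion
          (fun i => (D i).G A) : Finset (Fin d → ℤ)) : Set (Fin d → ℤ)) := by
        intro v hv
        rw [← hAC] at hv
        obtain ⟨i, hi⟩ := hT A v hv
        rw [Finset.mem_coe, Finset.mem_biUnion]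
        exact ⟨i, Finset.mem_univ _, hi⟩
      have h7 := Set.ncard_le_ncard h6 (Finset.finite_toSet _)
      rw [Set.ncard_coe_finset] at h7
      exact_mod_cast h7.trans Finset.card_biUnion_le
    have h6 := h5.trans (Finset.sum_le_sum hall)
    rw [Finset.sum_const, Finset.card_univ, Fintype.card_prod, Fintype.card_fin,
      Fintype.card_bool, nsmul_eq_mul] at h6
    push_cast at h6
    have h9 : ((T (Cl (Ls i0) ω o)).ncard : ℝ) ≤ Kd d p * (1 + x) := by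
      calc ((T (Cl (Ls i0) ω o)).ncard : ℝ) ≤ (d : ℝ) * 2 * (5 / c * r) := h6
        _ ≤ (d : ℝ) * 2 * (5 / c * ((1 + x) * (3 * d))) := by gcongr
        _ = Kd d p * (1 + x) := by
            unfold Kd
            rw [← hc]
            ring
    linarith
  have hE2 : ∀ i, P (Ev (Ls i0) o (E i)) ≤ 2 * P (Ev (Ls i0) o Φ) / 3 ^ r := by
    intro i
    rw [ENNReal.le_div_iff_mul_le (Or.inl (by positivity)) (Or.inl (by finiteness)), mul_comm]
    refine (tailP (Ls i) (D i) h0 h1 o hΦ r (by omega)).trans ?_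
    refine mul_le_mul' ?_ (le_refl _)
    exact_mod_cast hm
  refine (measure_mono hsub).trans ((measure_biUnion_finset_le _ _).trans ?_)
  refine (Finset.sum_le_sum fun i _ => hE2 i).trans ?_
  rw [Finset.sum_const, Finset.card_univ, Fintype.card_prod, Fintype.card_fin,
    Fintype.card_bool, nsmul_eq_mul]
  have h5 : (4 * (d : ℝ)) * Real.exp x ≤ 3 ^ r := by
    have h6 : Real.exp x ≤ 3 ^ ⌈x⌉₊ := by
      have h7 : Real.exp x ≤ Real.exp (⌈x⌉₊ : ℝ) := Real.exp_le_exp.2 (Nat.le_ceil x)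
      have h8 : Real.exp (⌈x⌉₊ : ℝ) = Real.exp 1 ^ ⌈x⌉₊ := by
        rw [← Real.exp_nat_mul, mul_one]
      rw [h8] at h7
      refine h7.trans (pow_le_pow_left₀ (Real.exp_pos _).le ?_ _)
      have := Real.exp_one_lt_d9
      linarith
    have h9 : (4 * (d : ℝ)) ≤ 3 ^ (d + 1) := by
      have h10 := three_pow d
      have h11 : 4 * d ≤ 3 ^ (d + 1) := by
        rw [pow_succ]
        omega
      exact_mod_cast h11
    have e : (3 : ℝ) ^ r = 3 ^ (d + 1) * 3 ^ ⌈x⌉₊ := by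
      rw [hr, ← pow_add]
      congr 1
      omega
    rw [e]
    exact mul_le_mul h9 h6 (Real.exp_pos _).le (by positivity)
  have h6 : ((4 * d : ℕ) : ℝ≥0∞) / 3 ^ r ≤ ENNReal.ofReal (Real.exp (-x)) := by
    have h7 : (4 * (d : ℝ)) / 3 ^ r ≤ Real.exp (-x) := by
      rw [div_le_iff₀ (by positivity), Real.exp_neg, ← div_eq_inv_mul, le_div_iff₀ (Real.exp_pos x)]
      exact h5
    have h8 : ((4 * d : ℕ) : ℝ≥0∞) / 3 ^ r = ENNReal.ofReal ((4 * (d : ℝ)) / 3 ^ r) := by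
      rw [ENNReal.ofReal_div_of_pos (by positivity), ENNReal.ofReal_pow (by norm_num)]
      congr 1
      · rw [show (4 * (d : ℝ)) = ((4 * d : ℕ) : ℝ) by push_cast; ring, ENNReal.ofReal_natCast]
      · norm_num
    rw [h8]
    exact ENNReal.ofReal_le_ofReal h7
  calc ((d * 2 : ℕ) : ℝ≥0∞) * (2 * P (Ev (Ls i0) o Φ) / 3 ^ r)
      = (((4 * d : ℕ) : ℝ≥0∞) / 3 ^ r) * P (Ev (Ls i0) o Φ) := by
        rw [div_eq_mul_inv, div_eq_mul_inv]
        push_cast
        ring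
    _ ≤ _ := mul_le_mul' h6 (le_refl _)

theorem Kd_pos {p : NNReal} (h0 : 0 < p) (h1 : p < 1) (i0 : Fin d × Bool) : 0 < Kd d p := by
  have hd : 1 ≤ d := i0.1.pos
  have hd' : (1 : ℝ) ≤ d := by exact_mod_cast hd
  have hq : 0 < (p : ℝ) * (1 - p) ^ (2 * d) := q_pos (Ls i0) h0 h1
  unfold Kd
  positivity

/-! ### Maximal points -/

/-- the points of `C` where `f` is maximal -/
def Maxi (f : (Fin d → ℤ) → ℝ) (C : Set (Fin d → ℤ)) : Set (Fin d → ℤ) :=
  {v | v ∈ C ∧ ∀ w ∈ C, f w ≤ f v}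

theorem nnb_dir {v w : Fin d → ℤ} (h : nnb v w) : ∃ i : Fin d × Bool, w = (Ls i).up v := by
  rw [nnb_iff] at h
  obtain ⟨i, h1 | h1⟩ := h
  · exact ⟨(i, true), h1⟩
  · exact ⟨(i, false), h1⟩

theorem maxi_cover {f : (Fin d → ℤ) → ℝ} (hf : ∀ v, ∃ w, nnb v w ∧ f v < f w)
    (A : Finset (Fin d → ℤ)) :
    ∀ v ∈ Maxi f (A : Set (Fin d → ℤ)), ∃ i : Fin d × Bool, v ∈ (decR (Ls i) f).G A := by
  rintro v ⟨h1, h2⟩
  obtain ⟨w, h3, h4⟩ := hf v
  obtain ⟨i, rfl⟩ := nnb_dir h3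
  refine ⟨i, (mem_GR (Ls i)).2 ⟨Finset.mem_coe.1 h1, fun w hw => h2 w (Finset.mem_coe.2 hw), h4⟩⟩

theorem maxi_ne (f : (Fin d → ℤ) → ℝ) (C : Set (Fin d → ℤ)) (hC : C.Finite) (hne : C.Nonempty) :
    (Maxi f C).Nonempty := by
  obtain ⟨v, hv, h⟩ := Set.exists_max_image C f hC hne
  exact ⟨v, hv, h⟩

/-! ### Ends of diameters -/

/-- the points of `C` which are at the maximal `F`-distance from some point of `C` -/
def Ends (F : (Fin d → ℤ) → ℝ) (C : Set (Fin d → ℤ)) : Set (Fin d → ℤ) :=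
  {v | v ∈ C ∧ ∃ u ∈ C, ∀ a ∈ C, ∀ b ∈ C, F (a - b) ≤ F (v - u)}

theorem ends_ne (F : (Fin d → ℤ) → ℝ) (C : Set (Fin d → ℤ)) (hC : C.Finite) (hne : C.Nonempty) :
    (Ends F C).Nonempty := by
  obtain ⟨x, hx, h⟩ := Set.exists_max_image (C ×ˢ C) (fun x => F (x.1 - x.2)) (hC.prod hC)
    (hne.prod hne)
  exact ⟨x.1, hx.1, x.2, hx.2, fun a ha b hb => h (a, b) ⟨ha, hb⟩⟩

theorem ends_trans (F : (Fin d → ℤ) → ℝ) (C : Set (Fin d → ℤ)) (u v : Fin d → ℤ) :
    v ∈ Ends F {z | z + u ∈ C} ↔ v + u ∈ Ends F C := by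
  constructor
  · rintro ⟨h1, w, h2, h3⟩
    refine ⟨h1, w + u, h2, ?_⟩
    intro a ha b hb
    have h4 := h3 (a - u) (by show a - u + u ∈ C; rwa [sub_add_cancel]) (b - u)
      (by show b - u + u ∈ C; rwa [sub_add_cancel])
    rw [sub_sub_sub_cancel_right] at h4
    rwa [add_sub_add_right_eq_sub]
  · rintro ⟨h1, w, h2, h3⟩
    refine ⟨h1, w - u, by show w - u + u ∈ C; rwa [sub_add_cancel], ?_⟩
    intro a ha b hb
    have h4 := h3 _ ha _ hb
    rw [add_sub_add_right_eq_sub] at h4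
    have e : v - (w - u) = v + u - w := by abel
    rw [e]
    exact h4

/-- distance-like functions -/
structure DL (F : (Fin d → ℤ) → ℝ) : Prop where
  mono : ∀ x y : Fin d → ℤ, (∀ j, |x j| ≤ |y j|) → F x ≤ F y
  strict : ∀ x, ∃ y, nnb x y ∧ (∀ j, |x j| ≤ |y j|) ∧ F x < F y

theorem h_Ls (i : Fin d × Bool) (v : Fin d → ℤ) : (Ls i).h v = sg i.2 * v i.1 := rfl

theorem up_Ls (i : Fin d × Bool) (v : Fin d → ℤ) :
    (Ls i).up v = v + Pi.single i.1 (sg i.2) := rfl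

theorem QL_Ls {F : (Fin d → ℤ) → ℝ} (hF : DL F) (i : Fin d × Bool) :
    QL (Ls i) (fun v u => F (v - u)) := by
  constructor
  · intro v u
    have e : ∀ j, |(v - u) j| = |(u - v) j| := fun j => by
      rw [Pi.sub_apply, Pi.sub_apply, abs_sub_comm]
    exact le_antisymm (hF.mono _ _ fun j => (e j).le) (hF.mono _ _ fun j => (e j).ge)
  · intro z x h
    refine hF.mono _ _ fun j => ?_
    rw [(Ls i).h_up, h_Ls, h_Ls] at h
    rw [up_Ls, Pi.sub_apply, Pi.sub_apply, Pi.add_apply]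
    rcases eq_or_ne j i.1 with hj | hj
    · rw [hj, Pi.single_eq_same]
      rcases sg_ok i.2 with hs | hs
      · rw [hs] at h ⊢
        rw [abs_of_nonneg (by omega), abs_of_nonneg (by omega)]
        omega
      · rw [hs] at h ⊢
        rw [abs_of_nonpos (by omega), abs_of_nonpos (by omega)]
        omega
    · rw [Pi.single_eq_of_ne hj, add_zero]

theorem ends_cover {F : (Fin d → ℤ) → ℝ} (hF : DL F) (A : Finset (Fin d → ℤ)) :
    ∀ v ∈ Ends F (A : Set (Fin d → ℤ)), ∃ i : Fin d × Bool,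
      v ∈ (decE (Ls i) (QL_Ls hF i)).G A := by
  rintro v ⟨h1, u, h2, h3⟩
  obtain ⟨y, g1, g2, g3⟩ := hF.strict (v - u)
  obtain ⟨i, rfl⟩ := nnb_dir g1
  refine ⟨i, (mem_GE (Ls i)).2 ⟨Finset.mem_coe.1 h1, u, Finset.mem_coe.1 h2, ?_, ?_, ?_⟩⟩
  · have h4 := g2 i.1
    rw [up_Ls, Pi.add_apply, Pi.single_eq_same, Pi.sub_apply] at h4
    rw [h_Ls, h_Ls]
    rcases sg_ok i.2 with hs | hs
    · rw [hs] at h4 ⊢
      by_contra hc
      rw [abs_of_nonpos (by omega), abs_of_nonpos (by omega)] at h4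
      omega
    · rw [hs] at h4 ⊢
      by_contra hc
      rw [abs_of_nonneg (by omega), abs_of_nonneg (by omega)] at h4
      omega
  · intro a ha b hb
    exact h3 a (Finset.mem_coe.2 ha) b (Finset.mem_coe.2 hb)
  · show F (v - u) < F ((Ls i).up v - u)
    have e : (Ls i).up (v - u) = (Ls i).up v - u := by
      rw [up_Ls, up_Ls]
      abel
    rw [← e]
    exact g3

end zd

end Run7.h647.PD
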